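import Pool.Agent.Lib.MP_610fe3_an.TM.Atom

/-!
# A non-transitive map has an attractor and a repeller joined by an orbit
-/

open Set Filter Function
open scoped Topology

namespace Pool.Agent.Lib.MP610fe3.TM

variable {X : Type*} [MetricSpace X] {f : X ≃ₜ X}

/-- A mixing piece for `f^M`. -/
structure Half (f : X ≃ₜ X) (M : ℕ) (A : Set X) : Prop where
  ne : A.Nonempty
  closed : IsClosed A
  inv : ∀ x ∈ A, ∀ j : ℤ, ev f (j * M) x ∈ A
  mix : ∀ δ : ℝ, 0 < δ → ∃ N₀ : ℕ, ∀ N : ℕ, N₀ ≤ N → ∀ a ∈ A, ∀ a' ∈ A,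
    ∃ z, z ∈ Sp f.symm δ a ∧ ev f ((M * N : ℕ) : ℤ) z ∈ Sp f δ a'

/-- A mixing attractor `A` and a mixing repeller `R` joined by an orbit. -/
structure Edge (f : X ≃ₜ X) (M : ℕ) (A R : Set X) : Prop where
  hA : Half f M A
  hR : Half f M R
  satA : ∀ a ∈ A, ∀ y, FwdAsymp f.symm y a → y ∈ A
  satR : ∀ r ∈ R, ∀ y, FwdAsymp f y r → y ∈ R
  disj : Disjoint A R
  conn : ∃ x₀, (∃ a ∈ A, FwdAsymp f x₀ a) ∧ ∃ r ∈ R, FwdAsymp f.symm x₀ r

theorem Half.symm {M : ℕ} {A : Set X} (h : Half f M A) : Half f.symm M A := by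
  refine ⟨h.ne, h.closed, fun x hx j => ?_, fun δ hδ => ?_⟩
  · rw [ev_symm]
    have := h.inv x hx (-j)
    rwa [neg_mul] at this
  · obtain ⟨N₀, hN₀⟩ := h.mix δ hδ
    refine ⟨N₀, fun N hN a ha a' ha' => ?_⟩
    obtain ⟨z, hz1, hz2⟩ := hN₀ N hN a' ha' a ha
    refine ⟨ev f ((M * N : ℕ) : ℤ) z, ?_, ?_⟩
    · simpa using hz2
    · rw [ev_symm, ev_neg_ev]
      exact hz1

theorem Edge.symm {M : ℕ} {A R : Set X} (h : Edge f M A R) : Edge f.symm M R A := by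
  obtain ⟨x₀, hx1, hx2⟩ := h.conn
  refine ⟨h.hR.symm, h.hA.symm, ?_, h.satA, h.disj.symm, x₀, hx2, ?_⟩
  · intro r hr y hy
    exact h.satR r hr y (by simpa using hy)
  · simpa using hx1

section

variable [CompactSpace X] {c : ℝ} {m : ℕ}

theorem Hyp.symm_fwd (H : Hyp f c) (x : X) : ∃ y ∈ Om f, FwdAsymp f x y :=
  exists_fwdAsymp H.c0 H.exp H.sh x

theorem Shadowing_symm (H : Shadowing f) : Shadowing f.symm := by
  intro ε hε
  obtain ⟨δ, hδ, hs⟩ := H ε hε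
  obtain ⟨η, hη, hu⟩ := unif_cont f 1 hδ
  refine ⟨η, hη, fun x hx => ?_⟩
  obtain ⟨y, hy, hyd⟩ := hs (fun k => x (-k)) (fun k => by
    have h1 := hx (-(k + 1))
    have h2 := hu _ _ h1 1 (by norm_num) (by norm_num)
    rw [ev_one, ev_one, f.apply_symm_apply] at h2
    have h3 : -(k + 1) + 1 = -k := by ring
    rw [h3] at h2
    rw [dist_comm]
    exact h2)
  refine ⟨fun k => y (-k), fun k => ?_, fun k => ?_⟩
  · have h1 := hy (-(k + 1))
    have h3 : -(k + 1) + 1 = -k := by ring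
    rw [h3] at h1
    change f.symm (y (-k)) = y (-(k + 1))
    rw [← h1, f.symm_apply_apply]
  · have := hyd (-k)
    simpa using this

theorem Hyp.symm (H : Hyp f c) : Hyp f.symm c := ⟨H.c0, H.exp.symm, Shadowing_symm H.sh⟩

theorem Hyp.exists_bwd (H : Hyp f c) (x : X) : ∃ y ∈ Om f, FwdAsymp f.symm x y := by
  obtain ⟨y, hy, h⟩ := H.symm.symm_fwd x
  rw [Om_symm] at hy
  exact ⟨y, hy, h⟩

/-- number of clopen sets containing a point reached from `x` -/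
noncomputable def rk (f : X ≃ₜ X) (m : ℕ) (x : X) : ℕ :=
  {E | E ∈ Bset f (Om f) ∧ ∃ y ∈ E, Reach (f ^ m) x y}.ncard

/-- number of clopen sets containing a point reaching `x` -/
noncomputable def rk' (f : X ≃ₜ X) (m : ℕ) (x : X) : ℕ :=
  {E | E ∈ Bset f (Om f) ∧ ∃ y ∈ E, Reach (f ^ m) y x}.ncard

theorem Hyp.rk_lt (H : Hyp f c) (hm0 : 0 < m)
    (hm : ∀ E ∈ Bset f (Om f), InvSet f (Om f) m E) {x y : X} (hx : x ∈ Om f)
    (h1 : Reach (f ^ m) x y) (h2 : ¬ Reach (f ^ m) y x) : rk f m y < rk f m x := by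
  have hfin := Bset_finite H.c0 H.exp H.sh
  apply Set.ncard_lt_ncard _ (hfin.subset fun E hE => hE.1)
  refine ⟨fun E hE => ⟨hE.1, ?_⟩, fun hsub => ?_⟩
  · obtain ⟨-, y', hy', h⟩ := hE
    exact ⟨y', hy', h1.trans h⟩
  · have hx' : x ∈ Om (f ^ m) := by rwa [Om_pow f hm0]
    obtain ⟨-, y', hy', h⟩ := hsub (show At f x ∈ _ from
      ⟨H.At_mem hm0 hm x, x, At_self hx, reach_self_of_mem_Om hx'⟩)
    exact h2 (h.trans (H.At_reach hy'.1 (At_comm hx hy') hm0))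

theorem Hyp.rk'_lt (H : Hyp f c) (hm0 : 0 < m)
    (hm : ∀ E ∈ Bset f (Om f), InvSet f (Om f) m E) {x y : X} (hx : x ∈ Om f)
    (h1 : Reach (f ^ m) y x) (h2 : ¬ Reach (f ^ m) x y) : rk' f m y < rk' f m x := by
  have hfin := Bset_finite H.c0 H.exp H.sh
  apply Set.ncard_lt_ncard _ (hfin.subset fun E hE => hE.1)
  refine ⟨fun E hE => ⟨hE.1, ?_⟩, fun hsub => ?_⟩
  · obtain ⟨-, y', hy', h⟩ := hE
    exact ⟨y', hy', h.trans h1⟩
  · have hx' : x ∈ Om (f ^ m) := by rwa [Om_pow f hm0]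
    obtain ⟨-, y', hy', h⟩ := hsub (show At f x ∈ _ from
      ⟨H.At_mem hm0 hm x, x, At_self hx, reach_self_of_mem_Om hx'⟩)
    exact h2 ((H.At_reach hx hy' hm0).trans h)

theorem exists_min {S : Set X} (hS : S.Nonempty) (r : X → ℕ) : ∃ x ∈ S, ∀ y ∈ S, r x ≤ r y := by
  obtain ⟨x, hx, h⟩ := (measure r).wf.has_min S hS
  exact ⟨x, hx, fun y hy => not_lt.1 (h y hy)⟩

/-- Composition of connections. -/
theorem Hyp.comp (H : Hyp f c) (hm0 : 0 < m)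
    (hm : ∀ E ∈ Bset f (Om f), InvSet f (Om f) m E) {x₁ x₀ e r r₁ r₀ a : X} (hr : r ∈ Om f)
    (hr1 : r₁ ∈ At f r) (hr0 : r₀ ∈ At f r) (h1e : FwdAsymp f.symm x₁ e)
    (h1 : FwdAsymp f x₁ r₁) (h0 : FwdAsymp f.symm x₀ r₀) (h0a : FwdAsymp f x₀ a) :
    ∃ (w : X) (k k' : ℤ), FwdAsymp f.symm w (ev f (k * m) e) ∧
      FwdAsymp f w (ev f (k' * m) a) := by
  obtain ⟨δ, hδ, hs⟩ := chainShadow H.sh H.c0
  obtain ⟨l, hl, hch⟩ := H.At_chain hr (H.At_inv hm r).closed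
  obtain ⟨N₀, hN₀⟩ := hch (m * l) (Nat.mul_pos hm0 hl) (Dvd.intro_left _ rfl) (δ / 3)
    (by positivity)
  obtain ⟨n1, hn1⟩ := fwd_iff.1 h1 (δ / 3) (by positivity)
  obtain ⟨n0, hn0⟩ := fwd_iff.1 h0 (δ / 3) (by positivity)
  set n := m * (n1 + n0) with hn
  have hnge : n1 + n0 ≤ n := Nat.le_mul_of_pos_left _ hm0
  have hmem1 : ev f n r₁ ∈ At f r := by
    have := (invSet_mem_iff_ev (H.At_inv hm r) (n1 + n0 : ℕ) r₁).1 hr1
    rwa [show ((n1 + n0 : ℕ) : ℤ) * m = n by rw [hn]; push_cast; ring] at this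
  have hmem0 : ev f (-n) r₀ ∈ At f r := by
    have := (invSet_mem_iff_ev (H.At_inv hm r) (-(n1 + n0 : ℕ)) r₀).1 hr0
    rwa [show (-((n1 + n0 : ℕ) : ℤ)) * m = -n by rw [hn]; push_cast; ring] at this
  have hc := hN₀ (N₀ + 1) (by omega) _ hmem1 _ hmem0
  have hpos : 0 < m * l * (N₀ + 1) := Nat.mul_pos (Nat.mul_pos hm0 hl) (Nat.succ_pos _)
  have hc1 := hc.first (x' := ev f n x₁) (ε' := δ / 3) hpos (by positivity) (by
    have := hn1 (n + 1) (by omega)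
    rw [Nat.cast_succ, add_comm, ev_add, ev_add, ev_one, ev_one] at this
    exact this)
  have hc2 := hc1.last (y' := ev f (-n) x₀) (ε' := δ / 3) hpos (by positivity) (by
    have := hn0 n (by omega)
    rw [ev_symm, ev_symm, dist_comm] at this
    exact this)
  obtain ⟨s, hs0, hsn, hsd⟩ := hc2
  obtain ⟨z, hz1, hz2⟩ := hs _ s (fun i hi => (hsd i hi).trans_le (by linarith))
  rw [hs0] at hz1
  rw [hsn] at hz2
  refine ⟨z, (n1 + n0 : ℕ), -(n1 + n0 : ℕ) - l * (N₀ + 1), ?_, ?_⟩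
  · have h3 := Sp_fwd H.exp.symm le_rfl hz1
    have h4 := fwd_ev_symm h1e n
    rw [show ((n1 + n0 : ℕ) : ℤ) * m = n by rw [hn]; push_cast; ring]
    exact FwdAsymp_trans h3 h4
  · have h3 := Sp_fwd H.exp le_rfl hz2
    have h4 := FwdAsymp_trans h3 (fwd_ev h0a (-n))
    have h5 := fwd_ev h4 (-((m * l * (N₀ + 1) : ℕ) : ℤ))
    rw [ev_neg_ev, ← ev_add] at h5
    rw [show (-((n1 + n0 : ℕ) : ℤ) - l * (N₀ + 1)) * m =
      -((m * l * (N₀ + 1) : ℕ) : ℤ) + -n by rw [hn]; push_cast; ring]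
    exact h5

theorem Hyp.half (H : Hyp f c)
    (hm : ∀ E ∈ Bset f (Om f), InvSet f (Om f) m E) {x : X} (hx : x ∈ Om f) :
    ∃ l : ℕ, 0 < l ∧ ∀ M : ℕ, 0 < M → m ∣ M → l ∣ M → Half f M (At f x) := by
  have hInv := H.At_inv hm x
  obtain ⟨l, hl, hch⟩ := H.At_chain hx hInv.closed
  refine ⟨l, hl, fun M hM hmM hlM => ⟨⟨x, At_self hx⟩, hInv.closed, fun y hy j => ?_, ?_⟩⟩
  · obtain ⟨k, rfl⟩ := hmM
    have := (invSet_mem_iff_ev hInv (j * k) y).1 hy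
    rwa [show j * (k : ℤ) * m = j * ((m * k : ℕ) : ℤ) by push_cast; ring] at this
  · intro δ hδ
    obtain ⟨δ', hδ', hs⟩ := chainShadow H.sh hδ
    obtain ⟨N₀, hN₀⟩ := hch M hM hlM δ' hδ'
    refine ⟨N₀, fun N hN a ha a' ha' => ?_⟩
    obtain ⟨s, hs0, hsn, hsd⟩ := hN₀ N hN a ha a' ha'
    obtain ⟨z, hz1, hz2⟩ := hs _ s hsd
    rw [hs0] at hz1
    rw [hsn] at hz2
    exact ⟨z, hz1, hz2⟩

/-- **Existence of an edge.** -/
theorem Hyp.exists_edge [ConnectedSpace X] (H : Hyp f c) (hnt : ¬ TopTransitive f) :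
    ∃ (M : ℕ) (A R : Set X), 0 < M ∧ Edge f M A R := by
  classical
  obtain ⟨m, hm0, hm⟩ := H.exists_period
  have hOmG : Om (f ^ m) = Om f := Om_pow f hm0
  -- `Om f` is nonempty
  obtain ⟨x₀⟩ : Nonempty X := inferInstance
  obtain ⟨y₀, hy₀, -⟩ := H.symm_fwd x₀
  -- terminal piece
  obtain ⟨a₀, ha₀, hmin⟩ := exists_min (S := Om f) ⟨y₀, hy₀⟩ (rk f m)
  have hterm : ∀ y ∈ Om f, Reach (f ^ m) a₀ y → Reach (f ^ m) y a₀ := by
    intro y hy h
    by_contra hn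
    exact absurd (H.rk_lt hm0 hm ha₀ h hn) (not_lt.2 (hmin y hy))
  set A := At f a₀ with hA
  have hAinv := H.At_inv hm a₀
  have hAr : ∀ a ∈ A, Reach (f ^ m) a a₀ ∧ Reach (f ^ m) a₀ a := fun a ha =>
    ⟨H.At_reach ha.1 (At_comm ha₀ ha) hm0, H.At_reach ha₀ ha hm0⟩
  have hsatA : ∀ a ∈ A, ∀ y, FwdAsymp f.symm y a → y ∈ A := by
    intro a ha y hy
    obtain ⟨b, hb, hyb⟩ := H.symm_fwd y
    have h1 : Reach (f ^ m) a y := reach_of_bwdAsymp (by rw [hOmG]; exact ha.1)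
      (fwd_pow_symm hy hm0)
    have h2 : Reach (f ^ m) y b := reach_of_fwdAsymp (by rw [hOmG]; exact hb) (fwd_pow hyb hm0)
    have h3 : Reach (f ^ m) b a₀ := hterm b hb ((hAr a ha).2.trans (h1.trans h2))
    have h4 : Reach (f ^ m) y a₀ := h2.trans h3
    have h5 : Reach (f ^ m) a₀ y := (hAr a ha).2.trans h1
    have hyO : y ∈ Om f := mem_closure_of_reach H.c0 H.exp H.sh
      (reach_of_pow hm0 (h4.trans h5))
    exact H.At_iso hm0 hm ha₀ hyO h5 h4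
  -- `A` is not open
  have hAne : ¬ IsOpen A := by
    intro hop
    have hclo : IsClopen A := ⟨hAinv.closed, hop⟩
    have huniv : A = univ := hclo.eq_univ ⟨a₀, At_self ha₀⟩
    apply hnt
    apply topTransitive_of_shadowing H.sh
    refine chainTransitive_of_Om ⟨c, H.c0, H.exp⟩ H.sh ?_
    rw [eq_univ_iff_forall] at huniv ⊢
    exact fun x => (huniv x).1
  have hnear : ∃ x, x ∉ A ∧ ∃ z ∈ A, FwdAsymp f x z := by
    rw [Metric.isOpen_iff] at hAne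
    push Not at hAne
    obtain ⟨a, ha, hball⟩ := hAne
    obtain ⟨δ, hδ, -, hb⟩ := bracketE H.sh H.c0
    obtain ⟨x, hxa, hxA⟩ := Set.not_subset.1 (hball δ hδ)
    obtain ⟨z, hz1, hz2⟩ := hb x a hxa
    exact ⟨x, hxA, z, hsatA a ha z (Sp_fwd H.exp.symm le_rfl hz2),
      FwdAsymp_symm (Sp_fwd H.exp le_rfl hz1)⟩
  -- the set of starting points of connections to `A`
  set S : Set X := {e | e ∈ Om f ∧ e ∉ A ∧ ∃ x, FwdAsymp f.symm x e ∧ ∃ a ∈ A, FwdAsymp f x a}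
    with hS
  have hSne : S.Nonempty := by
    obtain ⟨x, hxA, z, hz, hxz⟩ := hnear
    obtain ⟨e, he, hxe⟩ := H.exists_bwd x
    refine ⟨e, he, fun heA => hxA (hsatA e heA x hxe), x, hxe, z, hz, hxz⟩
  obtain ⟨r, ⟨hr, hrA, x₁, hx1r, a₁, ha₁, hx1a⟩, hrmin⟩ := exists_min hSne (rk' f m)
  have hRinv := H.At_inv hm r
  have hsatR : ∀ r' ∈ At f r, ∀ y, FwdAsymp f y r' → y ∈ At f r := by
    intro r' hr' y hy
    obtain ⟨e, he, hye⟩ := H.exists_bwd y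
    have h1 : Reach (f ^ m) e y := reach_of_bwdAsymp (by rw [hOmG]; exact he)
      (fwd_pow_symm hye hm0)
    have h2 : Reach (f ^ m) y r := (reach_of_fwdAsymp (by rw [hOmG]; exact hr'.1)
      (fwd_pow hy hm0)).trans (H.At_reach hr'.1 (At_comm hr hr') hm0)
    by_cases h3 : Reach (f ^ m) r e
    · have hyO : y ∈ Om f := mem_closure_of_reach H.c0 H.exp H.sh
        (reach_of_pow hm0 (h2.trans (h3.trans h1)))
      exact H.At_iso hm0 hm hr hyO (h3.trans h1) h2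
    · exfalso
      -- `e` is strictly before `r`
      obtain ⟨w, k, k', hw1, hw2⟩ := H.comp hm0 hm hr hr' (At_self hr) hye hy hx1r hx1a
      have he' : ev f (k * m) e ∈ Om f := by
        have := (invSet_mem_iff_ev (H.At_inv hm e) k e).1 (At_self he)
        exact this.1
      have heAt : ev f (k * m) e ∈ At f e := (invSet_mem_iff_ev (H.At_inv hm e) k e).1 (At_self he)
      have ha' : ev f (k' * m) a₁ ∈ A := (invSet_mem_iff_ev hAinv k' a₁).1 ha₁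
      have heS : ev f (k * m) e ∈ S := by
        refine ⟨he', fun hmem => ?_, w, hw1, _, ha', hw2⟩
        have heA : e ∈ A := by
          have := At_comm he heAt
          exact At_trans hmem this
        have hyA : y ∈ A := hsatA e heA y hye
        have h4 : r' ∈ At f y := H.At_fwd hm0 hm hyA.1 hr'.1 hy
        exact hrA (At_trans (At_trans hyA h4) (At_comm hr hr'))
      have h5 : Reach (f ^ m) (ev f (k * m) e) e := H.At_reach he' (At_comm he heAt) hm0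
      have h6 : Reach (f ^ m) e (ev f (k * m) e) := H.At_reach he heAt hm0
      have h7 := H.rk'_lt hm0 hm hr (h5.trans (h1.trans h2)) (fun h => h3 (h.trans h5))
      exact absurd h7 (not_lt.2 (hrmin _ heS))
  obtain ⟨l, hl, hhA⟩ := H.half hm ha₀
  obtain ⟨l', hl', hhR⟩ := H.half hm hr
  have hM : 0 < m * l * l' := Nat.mul_pos (Nat.mul_pos hm0 hl) hl'
  refine ⟨m * l * l', A, At f r, hM, hhA _ hM ⟨l * l', by ring⟩ ⟨m * l', by ring⟩,
    hhR _ hM ⟨l * l', by ring⟩ ⟨m * l, by ring⟩, hsatA, hsatR, ?_, x₁, ⟨a₁, ha₁, hx1a⟩,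
    r, At_self hr, hx1r⟩
  rw [Set.disjoint_left]
  intro x hxA hxR
  exact hrA (At_trans hxA (At_comm hr hxR))

end

end Pool.Agent.Lib.MP610fe3.TM
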