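import Pool.Agent.Lib.MP_610fe3_an.TM.Plaque

/-!
# Chains of exact length, powers of a homeomorphism
-/

open Set Filter Function
open scoped Topology

namespace Pool.Agent.Lib.MP610fe3.TM

section Chn

variable {X : Type*} [MetricSpace X]

/-- There is an `ε`-chain of length `n` from `x` to `y`. -/
def ChainN (f : X → X) (ε : ℝ) (n : ℕ) (x y : X) : Prop :=
  ∃ s : ℕ → X, s 0 = x ∧ s n = y ∧ ∀ i < n, dist (f (s i)) (s (i + 1)) < ε

variable {f : X → X} {ε ε' : ℝ} {x x' y y' z : X} {n m : ℕ}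

theorem ChainN.trans (h1 : ChainN f ε n x y) (h2 : ChainN f ε m y z) :
    ChainN f ε (n + m) x z := by
  obtain ⟨s, hs0, hsn, hs⟩ := h1
  obtain ⟨t, ht0, htm, ht⟩ := h2
  refine ⟨fun i => if i < n then s i else t (i - n), ?_, ?_, fun i hi => ?_⟩
  · rcases Nat.eq_zero_or_pos n with rfl | hn
    · simp [ht0, ← hsn, hs0]
    · simp [hn, hs0]
  · simp [htm]
  · rcases lt_trichotomy (i + 1) n with h | h | h
    · have h' : i < n := by omega
      simp only [h, h', if_true]
      exact hs i h'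
    · have h' : i < n := by omega
      have h'' : ¬ (i + 1 < n) := by omega
      simp only [h', h'', if_true, if_false]
      rw [show i + 1 - n = 0 by omega, ht0, ← hsn, ← h]
      exact hs i h'
    · have h' : ¬ (i < n) := by omega
      have h'' : ¬ (i + 1 < n) := by omega
      simp only [h', h'', if_false]
      rw [show i + 1 - n = (i - n) + 1 by omega]
      exact ht _ (by omega)

theorem chainN_trans_mid (h1 : ChainN f ε n x y) (h2 : ChainN f ε m y z) :
    ∃ s : ℕ → X, s 0 = x ∧ s n = y ∧ s (n + m) = z ∧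
      ∀ i < n + m, dist (f (s i)) (s (i + 1)) < ε := by
  obtain ⟨s, hs0, hsn, hs⟩ := h1
  obtain ⟨t, ht0, htm, ht⟩ := h2
  refine ⟨fun i => if i < n then s i else t (i - n), ?_, ?_, ?_, fun i hi => ?_⟩
  · rcases Nat.eq_zero_or_pos n with rfl | hn
    · simp [ht0, ← hsn, hs0]
    · simp [hn, hs0]
  · simp [ht0]
  · simp [htm]
  · rcases lt_trichotomy (i + 1) n with h | h | h
    · have h' : i < n := by omega
      simp only [h, h', if_true]
      exact hs i h'
    · have h' : i < n := by omega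
      have h'' : ¬ (i + 1 < n) := by omega
      simp only [h', h'', if_true, if_false]
      rw [show i + 1 - n = 0 by omega, ht0, ← hsn, ← h]
      exact hs i h'
    · have h' : ¬ (i < n) := by omega
      have h'' : ¬ (i + 1 < n) := by omega
      simp only [h', h'', if_false]
      rw [show i + 1 - n = (i - n) + 1 by omega]
      exact ht _ (by omega)

theorem ChainN.mono (h : ChainN f ε n x y) (hε : ε ≤ ε') : ChainN f ε' n x y := by
  obtain ⟨s, h0, hn, hs⟩ := h
  exact ⟨s, h0, hn, fun i hi => (hs i hi).trans_le hε⟩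

theorem chainN_of_chain (h : Chain f ε x y) : ∃ n, 0 < n ∧ ChainN f ε n x y := by
  obtain ⟨m, c, hm, h0, h1, h2⟩ := h
  exact ⟨m, hm, c, h0, h1, h2⟩

theorem ChainN.chain (h : ChainN f ε n x y) (hn : 0 < n) : Chain f ε x y := by
  obtain ⟨c, h0, h1, h2⟩ := h
  exact ⟨n, c, hn, h0, h1, h2⟩

theorem chainN_fix (hε : 0 < ε) (hx : f x = x) (n : ℕ) : ChainN f ε n x x :=
  ⟨fun _ => x, rfl, rfl, fun i _ => by simpa [hx] using hε⟩

theorem ChainN.first (h : ChainN f ε n x y) (hn : 0 < n) (hε' : 0 ≤ ε')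
    (hd : dist (f x') (f x) < ε') : ChainN f (ε + ε') n x' y := by
  obtain ⟨s, h0, hsn, hs⟩ := h
  refine ⟨fun i => if i = 0 then x' else s i, by simp, by simp [hn.ne', hsn], fun i hi => ?_⟩
  rcases Nat.eq_zero_or_pos i with rfl | hi0
  · simp only [if_true, zero_add, one_ne_zero, if_false]
    have h1 := hs 0 hn
    rw [h0, zero_add] at h1
    have h2 := dist_triangle (f x') (f x) (s 1)
    linarith
  · simp only [hi0.ne', if_false, Nat.succ_ne_zero]
    have := hs i hi
    linarith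

theorem ChainN.last (h : ChainN f ε n x y) (hn : 0 < n) (hε' : 0 ≤ ε')
    (hd : dist y y' < ε') : ChainN f (ε + ε') n x y' := by
  obtain ⟨s, h0, hsn, hs⟩ := h
  refine ⟨fun i => if i = n then y' else s i, by simp [hn.ne, h0], by simp, fun i hi => ?_⟩
  simp only [hi.ne, if_false]
  rcases eq_or_ne (i + 1) n with h1 | h1
  · simp only [h1, if_true]
    have h2 := hs i hi
    rw [h1, hsn] at h2
    have h3 := dist_triangle (f (s i)) y y'
    linarith
  · simp only [h1, if_false]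
    have := hs i hi
    linarith

theorem chainN_step {M : ℕ} (hM : 0 < M) (hε : 0 < ε) (h : dist (f^[M] x) y < ε) :
    ChainN f ε M x y := by
  refine ⟨fun i => if i < M then f^[i] x else y, by simp [hM], by simp, fun i hi => ?_⟩
  simp only [hi, if_true]
  rcases eq_or_ne (i + 1) M with h1 | h1
  · have h2 : ¬ (i + 1 < M) := by omega
    simp only [h2, if_false]
    rw [← iterate_succ_apply' f, Nat.succ_eq_add_one, h1]
    exact h
  · have h2 : i + 1 < M := by omega
    simp only [h2, if_true]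
    rw [← iterate_succ_apply' f, dist_self]
    exact hε

/-- A chain of `f^M` is a chain of `f`. -/
theorem ChainN.expand {M : ℕ} (hM : 0 < M) (hε : 0 < ε) (h : ChainN (f^[M]) ε n x y) :
    ChainN f ε (M * n) x y := by
  obtain ⟨s, h0, hsn, hs⟩ := h
  have key : ∀ k ≤ n, ChainN f ε (M * k) x (s k) := by
    intro k
    induction k with
    | zero =>
      intro _
      exact ⟨fun _ => x, rfl, by simp [h0], fun i hi => by omega⟩
    | succ k ih =>
      intro hk
      rw [Nat.mul_succ]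
      exact (ih (by omega)).trans (chainN_step hM hε (hs k (by omega)))
  have := key n le_rfl
  rwa [hsn] at this

theorem chainN_iter (hε : 0 < ε) {M : ℕ} (hM : 0 < M) (x : X) : ChainN f ε M x (f^[M] x) :=
  chainN_step hM hε (by rwa [dist_self])

end Chn

section Pow

variable {X : Type*} [MetricSpace X] {f : X ≃ₜ X}

theorem coe_pow (f : X ≃ₜ X) (L : ℕ) : ⇑(f ^ L) = f^[L] := by
  induction L with
  | zero => rfl
  | succ L ih => rw [pow_succ, iterate_succ, ← ih]; rfl

theorem coe_pow_symm (f : X ≃ₜ X) (L : ℕ) : ⇑(f ^ L).symm = f.symm^[L] := by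
  have : (f ^ L).symm = f.symm ^ L := by
    have h1 : f.symm = f⁻¹ := rfl
    rw [h1, inv_pow]
    rfl
  rw [this, coe_pow]

theorem fwd_iter {g : X → X} {x y : X} (h : FwdAsymp g x y) {L : ℕ} (hL : 0 < L) :
    FwdAsymp (g^[L]) x y := by
  have h2 : Tendsto (fun j => L * j) atTop atTop :=
    tendsto_atTop_mono (fun j => Nat.le_mul_of_pos_left j hL) tendsto_id
  have h3 := (show Tendsto (fun k : ℕ => dist (g^[k] x) (g^[k] y)) atTop (𝓝 0) from h).comp h2
  refine h3.congr (fun j => ?_)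
  simp only [Function.comp_apply]
  rw [iterate_mul]

theorem fwd_pow {x y : X} (h : FwdAsymp f x y) {L : ℕ} (hL : 0 < L) : FwdAsymp (f ^ L) x y := by
  rw [coe_pow]; exact fwd_iter h hL

theorem fwd_pow_symm {x y : X} (h : FwdAsymp f.symm x y) {L : ℕ} (hL : 0 < L) :
    FwdAsymp (f ^ L).symm x y := by
  rw [coe_pow_symm]; exact fwd_iter h hL

theorem FwdAsymp_symm {g : X → X} {x y : X} (h : FwdAsymp g x y) : FwdAsymp g y x := by
  unfold FwdAsymp at h ⊢
  simpa only [dist_comm] using h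

theorem FwdAsymp_trans {g : X → X} {x y z : X} (h : FwdAsymp g x y) (h' : FwdAsymp g y z) :
    FwdAsymp g x z := by
  have h2 : Tendsto (fun k : ℕ => dist (g^[k] x) (g^[k] y) + dist (g^[k] y) (g^[k] z)) atTop
      (𝓝 (0 + 0)) := Tendsto.add h h'
  rw [add_zero] at h2
  exact squeeze_zero (fun _ => dist_nonneg) (fun k => dist_triangle _ _ _) h2

/-- Asymptotic points in terms of `ev`. -/
theorem fwd_iff {x y : X} : FwdAsymp f x y ↔
    ∀ ε > 0, ∃ N : ℕ, ∀ n : ℕ, N ≤ n → dist (ev f n x) (ev f n y) < ε := by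
  unfold FwdAsymp
  rw [Metric.tendsto_atTop]
  simp only [Real.dist_0_eq_abs, abs_of_nonneg dist_nonneg, ev_nat, ge_iff_le, gt_iff_lt]

theorem fwd_ev {x y : X} (h : FwdAsymp f x y) (k : ℤ) : FwdAsymp f (ev f k x) (ev f k y) := by
  rw [fwd_iff] at h ⊢
  intro ε hε
  obtain ⟨N, hN⟩ := h ε hε
  refine ⟨N + k.natAbs, fun n hn => ?_⟩
  rw [← ev_add, ← ev_add]
  have h1 : (n : ℤ) + k = (((n : ℤ) + k).toNat : ℤ) := by omega
  rw [h1]
  exact hN _ (by omega)

theorem fwd_ev_symm {x y : X} (h : FwdAsymp f.symm x y) (k : ℤ) :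
    FwdAsymp f.symm (ev f k x) (ev f k y) := by
  have := fwd_ev h (-k)
  simpa only [ev_symm, neg_neg] using this

/-- An asymptotic point enters the small plaques. -/
theorem fwd_Sp {x y : X} (h : FwdAsymp f x y) {ε : ℝ} (hε : 0 < ε) :
    ∃ N : ℕ, ∀ n : ℕ, N ≤ n → ev f n x ∈ Sp f ε (ev f n y) := by
  rw [fwd_iff] at h
  obtain ⟨N, hN⟩ := h ε hε
  refine ⟨N, fun n hn k => ?_⟩
  rw [← ev_add, ← ev_add]
  exact_mod_cast (hN (k + n) (by omega)).le

theorem fwd_Sp_symm {x y : X} (h : FwdAsymp f.symm x y) {ε : ℝ} (hε : 0 < ε) :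
    ∃ N : ℕ, ∀ n : ℕ, N ≤ n → ev f (-n) x ∈ Sp f.symm ε (ev f (-n) y) := by
  obtain ⟨N, hN⟩ := fwd_Sp h hε
  refine ⟨N, fun n hn => ?_⟩
  have := hN n hn
  simpa only [ev_symm] using this

theorem periodicPts_pow (f : X ≃ₜ X) {L : ℕ} (hL : 0 < L) :
    periodicPts (f ^ L) = periodicPts f := by
  ext p
  constructor
  · rintro ⟨n, hn, h⟩
    refine ⟨L * n, Nat.mul_pos hL hn, ?_⟩
    unfold IsPeriodicPt IsFixedPt at h ⊢
    rw [coe_pow] at h
    rw [iterate_mul]
    exact h
  · rintro ⟨n, hn, h⟩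
    refine ⟨n, hn, ?_⟩
    unfold IsPeriodicPt IsFixedPt at h ⊢
    rw [coe_pow, ← iterate_mul, mul_comm, iterate_mul]
    exact (show IsFixedPt (f^[n]) p from h).iterate L

theorem Om_pow (f : X ≃ₜ X) {L : ℕ} (hL : 0 < L) : Om (f ^ L) = Om f := by
  rw [Om, Om, periodicPts_pow f hL]

theorem reach_of_pow {x y : X} {L : ℕ} (hL : 0 < L) (h : Reach (f ^ L) x y) : Reach f x y := by
  intro ε hε
  obtain ⟨n, hn, hc⟩ := chainN_of_chain (h ε hε)
  rw [coe_pow] at hc
  exact (hc.expand hL hε).chain (Nat.mul_pos hL hn)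

variable [CompactSpace X]

/-- Close points of `Om f` reach each other for all powers of `f`. -/
theorem exists_reach_pow {c : ℝ} (hc0 : 0 < c) (hc : ExpConst f c) (hsh : Shadowing f) :
    ∃ δ : ℝ, 0 < δ ∧ ∀ L : ℕ, 0 < L → ∀ y ∈ Om f, ∀ y' ∈ Om f, dist y y' < δ →
      Reach (f ^ L) y y' := by
  obtain ⟨δ, hδ, hb⟩ := bracket hc0 hc hsh
  refine ⟨δ / 2, by positivity, fun L hL y hy y' hy' hd => ?_⟩
  apply reach_of_approx (f ^ L).continuous
  intro r hr
  have hm : 0 < min r (δ / 4) := lt_min hr (by positivity)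
  obtain ⟨p, hp, hyp⟩ := Metric.mem_closure_iff.1 hy _ hm
  obtain ⟨q, hq, hyq⟩ := Metric.mem_closure_iff.1 hy' _ hm
  rw [dist_comm] at hyp hyq
  refine ⟨p, q, hyp.trans_le (min_le_left _ _), hyq.trans_le (min_le_left _ _), ?_⟩
  have h1 : dist p q < δ := by
    have h2 := hyp.trans_le (min_le_right _ _)
    have h3 := hyq.trans_le (min_le_right _ _)
    have h4 := dist_triangle4 p y y' q
    rw [dist_comm y' q] at h4
    linarith
  obtain ⟨z, hz1, hz2⟩ := hb p q h1
  have hp' : p ∈ Om (f ^ L) := by rw [Om_pow f hL]; exact subset_closure hp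
  have hq' : q ∈ Om (f ^ L) := by rw [Om_pow f hL]; exact subset_closure hq
  exact (reach_of_bwdAsymp hp' (fwd_pow_symm hz1 hL)).trans
    (reach_of_fwdAsymp hq' (fwd_pow hz2 hL))

end Pow

end Pool.Agent.Lib.MP610fe3.TM
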