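import Pool.Agent.Lib.MP_610fe3_an.TM.Chn

/-!
# Transitivity and chain transitivity
-/

open Set Filter Function
open scoped Topology

namespace Pool.Agent.Lib.MP610fe3.TM

variable {X : Type*} [MetricSpace X]

theorem chainTransitive_of_topTransitive {f : X → X} (h : TopTransitive f) :
    ChainTransitive f := by
  intro x y ε hε
  obtain ⟨k, w, ⟨z, hz, rfl⟩, hw⟩ := h (Metric.ball (f x) (ε / 2)) (Metric.ball y (ε / 2))
    Metric.isOpen_ball Metric.isOpen_ball ⟨f x, Metric.mem_ball_self (by positivity)⟩
    ⟨y, Metric.mem_ball_self (by positivity)⟩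
  rw [Metric.mem_ball] at hz hw
  rcases Nat.eq_zero_or_pos k with rfl | hk
  · rw [iterate_zero, id] at hw
    refine ChainN.chain (n := 1) (chainN_step one_pos hε ?_) one_pos
    rw [iterate_one]
    have := dist_triangle_left (f x) y z
    linarith
  · refine ChainN.chain (n := 1 + k) (ChainN.trans (y := z) (chainN_step one_pos hε ?_)
      (chainN_step hk hε (by linarith))) (by omega)
    rw [iterate_one, dist_comm]
    linarith

theorem topTransitive_symm {X : Type*} [TopologicalSpace X] {f : X ≃ₜ X}
    (h : TopTransitive f) : TopTransitive f.symm := by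
  intro U V hU hV hUn hVn
  obtain ⟨k, w, ⟨z, hz, rfl⟩, hw⟩ := h V U hV hU hVn hUn
  refine ⟨k, z, ⟨f^[k] z, hw, ?_⟩, hz⟩
  exact (Function.LeftInverse.iterate f.symm_apply_apply k) z

end Pool.Agent.Lib.MP610fe3.TM
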