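import Pool.Agent.Lib.MP_610fe3_an.TM.Chn
import Pool.Agent.Lib.MP_610fe3_an.TopD

/-!
# The mixing pieces of an expansive homeomorphism with shadowing
-/

open Set Filter Function
open scoped Topology

namespace Pool.Agent.Lib.MP610fe3.TM

variable {X : Type*} [MetricSpace X] {f : X ≃ₜ X}

/-- expansive with constant `c`, shadowing -/
structure Hyp (f : X ≃ₜ X) (c : ℝ) : Prop where
  c0 : 0 < c
  exp : ExpConst f c
  sh : Shadowing f

theorem image_mul {E : Set X} {N : ℕ} (h : f^[N] '' E = E) (k : ℕ) : f^[N * k] '' E = E := by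
  induction k with
  | zero => simp
  | succ k ih =>
    rw [Nat.mul_succ, iterate_add, image_comp, h, ih]

theorem invSet_mul {A E : Set X} {N : ℕ} (h : InvSet f A N E) (k : ℕ) :
    InvSet f A (N * k) E :=
  ⟨h.sub, h.closed, h.closed', image_mul h.inv k⟩

theorem invSet_mem_iff {A E : Set X} {N : ℕ} (h : InvSet f A N E) (y : X) :
    y ∈ E ↔ ev f N y ∈ E := by
  rw [ev_nat]
  constructor
  · intro hy
    have := mem_image_of_mem (f^[N]) hy
    rwa [h.inv] at this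
  · intro hy
    rw [← h.inv] at hy
    obtain ⟨y', hy', he⟩ := hy
    rwa [← f.injective.iterate N he]

theorem invSet_mem_iff_ev {A E : Set X} {N : ℕ} (h : InvSet f A N E) (j : ℤ) (y : X) :
    y ∈ E ↔ ev f (j * N) y ∈ E := by
  induction j using Int.induction_on with
  | zero => simp
  | succ i ih =>
    rw [ih, invSet_mem_iff h, ← ev_add]
    have : (N : ℤ) + i * N = (i + 1) * N := by ring
    rw [this]
  | pred i ih =>
    rw [ih, invSet_mem_iff h (ev f ((-(i : ℤ) - 1) * N) y), ← ev_add]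
    have : (N : ℤ) + (-(i : ℤ) - 1) * N = -i * N := by ring
    rw [this]

section

variable [CompactSpace X] {c : ℝ}

/-- A common period of the clopen sets invariant under a power. -/
theorem Hyp.exists_period (H : Hyp f c) :
    ∃ m : ℕ, 0 < m ∧ ∀ E ∈ Bset f (Om f), InvSet f (Om f) m E := by
  classical
  have hfin := Bset_finite H.c0 H.exp H.sh
  have : ∀ E : Set X, ∃ N : ℕ, 0 < N ∧ (E ∈ Bset f (Om f) → InvSet f (Om f) N E) := by
    intro E
    by_cases hE : E ∈ Bset f (Om f)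
    · obtain ⟨N, hN, h⟩ := hE
      exact ⟨N, hN, fun _ => h⟩
    · exact ⟨1, one_pos, fun h => absurd h hE⟩
  choose N hN hNE using this
  refine ⟨∏ E ∈ hfin.toFinset, N E, Finset.prod_pos fun E _ => hN E, fun E hE => ?_⟩
  obtain ⟨k, hk⟩ := Finset.dvd_prod_of_mem N (hfin.mem_toFinset.2 hE)
  rw [hk]
  exact invSet_mul (hNE E hE) k

end

/-- The piece of `x`. -/
def At (f : X ≃ₜ X) (x : X) : Set X := {y | y ∈ Om f ∧ ∀ E ∈ Bset f (Om f), x ∈ E ↔ y ∈ E}

theorem At_self {x : X} (hx : x ∈ Om f) : x ∈ At f x := ⟨hx, fun _ _ => Iff.rfl⟩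

theorem At_comm {x y : X} (hx : x ∈ Om f) (h : y ∈ At f x) : x ∈ At f y :=
  ⟨hx, fun E hE => (h.2 E hE).symm⟩

theorem At_trans {x y z : X} (h : y ∈ At f x) (h' : z ∈ At f y) : z ∈ At f x :=
  ⟨h'.1, fun E hE => (h.2 E hE).trans (h'.2 E hE)⟩

theorem At_eq {x y : X} (hx : x ∈ Om f) (h : y ∈ At f x) : At f y = At f x := by
  ext z
  exact ⟨fun hz => At_trans h hz, fun hz => At_trans (At_comm hx h) hz⟩

section Atoms

variable [CompactSpace X] {c : ℝ} {m : ℕ}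

theorem Hyp.At_close (H : Hyp f c) : ∃ δ : ℝ, 0 < δ ∧ ∀ y ∈ Om f, ∀ y' ∈ Om f, dist y y' < δ →
    y' ∈ At f y := by
  obtain ⟨δ, hδ, h⟩ := exists_close H.c0 H.exp H.sh
  refine ⟨δ, hδ, fun y hy y' hy' hd => ⟨hy', fun E hE => ⟨h E hE y hy y' hy' hd, ?_⟩⟩⟩
  exact h E hE y' hy' y hy (by rwa [dist_comm])

theorem Hyp.At_inv (H : Hyp f c) (hm : ∀ E ∈ Bset f (Om f), InvSet f (Om f) m E) (x : X) :
    InvSet f (Om f) m (At f x) := by
  obtain ⟨δ, hδ, hcl⟩ := H.At_close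
  refine ⟨fun y hy => hy.1, ?_, ?_, ?_⟩
  · apply isClosed_of_closure_subset
    intro y hy
    obtain ⟨y', hy', hd⟩ := Metric.mem_closure_iff.1 hy δ hδ
    have hyO : y ∈ Om f := (isClosed_Om f).closure_subset_iff.2 (fun z hz => hz.1) hy
    exact At_trans hy' (hcl y' hy'.1 y hyO (by rwa [dist_comm]))
  · apply isClosed_of_closure_subset
    intro y hy
    obtain ⟨y', hy', hd⟩ := Metric.mem_closure_iff.1 hy δ hδ
    have hyO : y ∈ Om f := (isClosed_Om f).closure_subset_iff.2 (fun z hz => hz.1) hy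
    refine ⟨hyO, fun hyA => hy'.2 ?_⟩
    exact At_trans hyA (hcl y hyO y' hy'.1 hd)
  · apply Subset.antisymm
    · rintro _ ⟨y, hy, rfl⟩
      refine ⟨iterate_mem_Om hy.1 m, fun E hE => (hy.2 E hE).trans ?_⟩
      rw [invSet_mem_iff (hm E hE), ev_nat]
    · intro y hy
      have h1 : f^[m] (f.symm^[m] y) = y :=
        (Function.RightInverse.iterate f.apply_symm_apply m) y
      refine ⟨f.symm^[m] y, ⟨symm_iterate_mem_Om hy.1 m, fun E hE => (hy.2 E hE).trans ?_⟩, h1⟩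
      rw [invSet_mem_iff (hm E hE) (f.symm^[m] y), ev_nat, h1]

theorem Hyp.At_mem (H : Hyp f c) (hm0 : 0 < m)
    (hm : ∀ E ∈ Bset f (Om f), InvSet f (Om f) m E) (x : X) : At f x ∈ Bset f (Om f) :=
  ⟨m, hm0, H.At_inv hm x⟩

/-- The points of a piece reach each other, for all powers. -/
theorem Hyp.At_reach (H : Hyp f c) {x y : X} (hx : x ∈ Om f) (hy : y ∈ At f x) {L : ℕ}
    (hL : 0 < L) : Reach (f ^ L) x y := by
  obtain ⟨δ, hδ, hcl⟩ := exists_reach_pow H.c0 H.exp H.sh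
  have hG : ∀ w ∈ Om f, Reach (f ^ L) w (f^[L] w) ∧ Reach (f ^ L) (f^[L] w) w := by
    intro w hw
    have hw' : w ∈ Om (f ^ L) := by rwa [Om_pow f hL]
    constructor
    · have := reach_iterate (f ^ L) w one_pos
      rw [iterate_one] at this
      rwa [← coe_pow]
    · have := reach_of_mem_Om hw' 1
      rw [iterate_one] at this
      rwa [← coe_pow]
  set E' : Set X := {y | y ∈ Om f ∧ Reach (f ^ L) x y ∧ Reach (f ^ L) y x} with hE'
  have hstep : ∀ w ∈ E', ∀ w' ∈ Om f, dist w w' < δ → w' ∈ E' := by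
    rintro w ⟨hw, h1, h2⟩ w' hw' hd
    exact ⟨hw', h1.trans (hcl L hL w hw w' hw' hd),
      (hcl L hL w' hw' w hw (by rwa [dist_comm])).trans h2⟩
  have hE'B : E' ∈ Bset f (Om f) := by
    refine ⟨L, hL, fun y hy => hy.1, ?_, ?_, ?_⟩
    · apply isClosed_of_closure_subset
      intro y hy
      obtain ⟨y', hy', hd⟩ := Metric.mem_closure_iff.1 hy δ hδ
      have hyO : y ∈ Om f := (isClosed_Om f).closure_subset_iff.2 (fun z hz => hz.1) hy
      exact hstep y' hy' y hyO (by rwa [dist_comm])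
    · apply isClosed_of_closure_subset
      intro y hy
      obtain ⟨y', hy', hd⟩ := Metric.mem_closure_iff.1 hy δ hδ
      have hyO : y ∈ Om f := (isClosed_Om f).closure_subset_iff.2 (fun z hz => hz.1) hy
      exact ⟨hyO, fun hyA => hy'.2 (hstep y hyA y' hy'.1 hd)⟩
    · apply Subset.antisymm
      · rintro _ ⟨y, ⟨hy, h1, h2⟩, rfl⟩
        exact ⟨iterate_mem_Om hy L, h1.trans (hG y hy).1, (hG y hy).2.trans h2⟩
      · rintro y ⟨hy, h1, h2⟩
        have h3 : f^[L] (f.symm^[L] y) = y :=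
          (Function.RightInverse.iterate f.apply_symm_apply L) y
        have h4 := hG _ (symm_iterate_mem_Om hy L)
        rw [h3] at h4
        exact ⟨f.symm^[L] y, ⟨symm_iterate_mem_Om hy L, h1.trans h4.2, h4.1.trans h2⟩, h3⟩
  have hxE : x ∈ E' := by
    have hx' : x ∈ Om (f ^ L) := by rwa [Om_pow f hL]
    exact ⟨hx, reach_self_of_mem_Om hx', reach_self_of_mem_Om hx'⟩
  exact ((hy.2 E' hE'B).1 hxE).2.1

/-- Points reaching each other are in the same piece. -/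
theorem Hyp.At_iso (H : Hyp f c) (hm0 : 0 < m)
    (hm : ∀ E ∈ Bset f (Om f), InvSet f (Om f) m E) {x y : X} (hx : x ∈ Om f) (hy : y ∈ Om f)
    (h1 : Reach (f ^ m) x y) (h2 : Reach (f ^ m) y x) : y ∈ At f x := by
  have key : ∀ x ∈ Om f, ∀ y ∈ Om f, Reach (f ^ m) x y → Reach (f ^ m) y x →
      ∀ E ∈ Bset f (Om f), x ∈ E → y ∈ E := by
    intro x hx y hy h1 h2 E hE hxE
    obtain ⟨δ, hδ, hcl⟩ := exists_close H.c0 H.exp H.sh
    obtain ⟨δ₂, hδ₂, hclo⟩ := closing H.c0 H.exp H.sh hδ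
    obtain ⟨n1, hn1, c1⟩ := chainN_of_chain (h1 δ₂ hδ₂)
    obtain ⟨n2, hn2, c2⟩ := chainN_of_chain (h2 δ₂ hδ₂)
    rw [coe_pow] at c1 c2
    obtain ⟨s, hs0, hs1, hs2, hs⟩ := chainN_trans_mid (c1.expand hm0 hδ₂) (c2.expand hm0 hδ₂)
    have hpos2 : 0 < m * n2 := Nat.mul_pos hm0 hn2
    obtain ⟨p, hp, hpd⟩ := hclo (m * n1 + m * n2) s (by omega) (by rw [hs2, hs0]) hs
    have hpO : p ∈ Om f := subset_closure ⟨m * n1 + m * n2, by omega, hp⟩
    have h3 := hpd 0 (by omega)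
    rw [hs0, iterate_zero, id] at h3
    have hpE : p ∈ E := hcl E hE x hx p hpO (by rwa [dist_comm]) hxE
    have h4 := hpd (m * n1) (by omega)
    rw [hs1] at h4
    exact hcl E hE _ (iterate_mem_Om hpO _) y hy h4 (iterate_maps (hm E hE).inv hpE n1)
  exact ⟨hy, fun E hE => ⟨key x hx y hy h1 h2 E hE, key y hy x hx h2 h1 E hE⟩⟩

/-- Asymptotic points of `Om f` are in the same piece. -/
theorem Hyp.At_fwd (H : Hyp f c) (hm0 : 0 < m)
    (hm : ∀ E ∈ Bset f (Om f), InvSet f (Om f) m E) {x y : X} (hx : x ∈ Om f) (hy : y ∈ Om f)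
    (h : FwdAsymp f x y) : y ∈ At f x := by
  have hx' : x ∈ Om (f ^ m) := by rwa [Om_pow f hm0]
  have hy' : y ∈ Om (f ^ m) := by rwa [Om_pow f hm0]
  apply H.At_iso hm0 hm hx hy
  · exact reach_of_fwdAsymp hy' (fwd_pow h hm0)
  · exact reach_of_fwdAsymp hx' (fwd_pow (FwdAsymp_symm h) hm0)

theorem Hyp.At_bwd (H : Hyp f c) (hm0 : 0 < m)
    (hm : ∀ E ∈ Bset f (Om f), InvSet f (Om f) m E) {x y : X} (hx : x ∈ Om f) (hy : y ∈ Om f)
    (h : FwdAsymp f.symm x y) : y ∈ At f x := by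
  have hx' : x ∈ Om (f ^ m) := by rwa [Om_pow f hm0]
  have hy' : y ∈ Om (f ^ m) := by rwa [Om_pow f hm0]
  apply H.At_iso hm0 hm hx hy
  · exact reach_of_bwdAsymp hx' (fwd_pow_symm (FwdAsymp_symm h) hm0)
  · exact reach_of_bwdAsymp hy' (fwd_pow_symm h hm0)

/-- Chains of all large lengths. -/
theorem Hyp.At_chain (H : Hyp f c) {x : X} (hx : x ∈ Om f)
    (hcl : IsClosed (At f x)) :
    ∃ l : ℕ, 0 < l ∧ ∀ M : ℕ, 0 < M → l ∣ M → ∀ ε : ℝ, 0 < ε →
      ∃ N₀ : ℕ, ∀ N : ℕ, N₀ ≤ N → ∀ a ∈ At f x, ∀ a' ∈ At f x, ChainN f ε (M * N) a a' := by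
  obtain ⟨δ, hδ, hclose⟩ := H.At_close
  obtain ⟨p, hp, hxp⟩ := Metric.mem_closure_iff.1 (show x ∈ closure (periodicPts f) from hx) δ hδ
  have hpO : p ∈ Om f := subset_closure hp
  have hpA : p ∈ At f x := hclose x hx p hpO hxp
  obtain ⟨l, hl, hpl⟩ := hp
  refine ⟨l, hl, fun M hM hlM ε hε => ?_⟩
  have hpM : (f ^ M) p = p := by
    obtain ⟨k, rfl⟩ := hlM
    rw [coe_pow]
    exact (show IsPeriodicPt f l p from hpl).mul_const k
  have hto : ∃ K : ℕ, ∀ a ∈ At f x, ∃ n, 0 < n ∧ n ≤ K ∧ ChainN (f ^ M) ε n a p := by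
    refine hcl.isCompact.induction_on (p := fun S => ∃ K : ℕ, ∀ a ∈ S, ∃ n, 0 < n ∧ n ≤ K ∧
      ChainN (f ^ M) ε n a p) ⟨0, by simp⟩ ?_ ?_ ?_
    · rintro S T hST ⟨K, hK⟩
      exact ⟨K, fun a ha => hK a (hST ha)⟩
    · rintro S T ⟨K, hK⟩ ⟨K', hK'⟩
      refine ⟨max K K', fun a ha => ?_⟩
      rcases ha with ha | ha
      · obtain ⟨n, h0, h1, h2⟩ := hK a ha
        exact ⟨n, h0, h1.trans (le_max_left _ _), h2⟩
      · obtain ⟨n, h0, h1, h2⟩ := hK' a ha
        exact ⟨n, h0, h1.trans (le_max_right _ _), h2⟩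
    · intro a₀ ha₀
      have h1 : Reach (f ^ M) a₀ p := H.At_reach ha₀.1 (At_trans (At_comm hx ha₀) hpA) hM
      obtain ⟨n, hn, hc⟩ := chainN_of_chain (h1 (ε / 2) (by positivity))
      refine ⟨{a | dist ((f ^ M) a) ((f ^ M) a₀) < ε / 2}, mem_nhdsWithin_of_mem_nhds ?_, n,
        fun a ha => ⟨n, hn, le_rfl, ?_⟩⟩
      · exact (isOpen_lt ((f ^ M).continuous.dist continuous_const) continuous_const).mem_nhds
          (by simp [hε])
      · exact (hc.first hn (by positivity) ha).mono (by linarith)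
  have hfrom : ∃ K : ℕ, ∀ a ∈ At f x, ∃ n, 0 < n ∧ n ≤ K ∧ ChainN (f ^ M) ε n p a := by
    refine hcl.isCompact.induction_on (p := fun S => ∃ K : ℕ, ∀ a ∈ S, ∃ n, 0 < n ∧ n ≤ K ∧
      ChainN (f ^ M) ε n p a) ⟨0, by simp⟩ ?_ ?_ ?_
    · rintro S T hST ⟨K, hK⟩
      exact ⟨K, fun a ha => hK a (hST ha)⟩
    · rintro S T ⟨K, hK⟩ ⟨K', hK'⟩
      refine ⟨max K K', fun a ha => ?_⟩
      rcases ha with ha | ha
      · obtain ⟨n, h0, h1, h2⟩ := hK a ha
        exact ⟨n, h0, h1.trans (le_max_left _ _), h2⟩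
      · obtain ⟨n, h0, h1, h2⟩ := hK' a ha
        exact ⟨n, h0, h1.trans (le_max_right _ _), h2⟩
    · intro a₀ ha₀
      have h1 : Reach (f ^ M) p a₀ := H.At_reach hpO (At_trans (At_comm hx hpA) ha₀) hM
      obtain ⟨n, hn, hc⟩ := chainN_of_chain (h1 (ε / 2) (by positivity))
      refine ⟨{a | dist a₀ a < ε / 2}, mem_nhdsWithin_of_mem_nhds ?_, n,
        fun a ha => ⟨n, hn, le_rfl, ?_⟩⟩
      · exact (isOpen_lt (continuous_const.dist continuous_id) continuous_const).mem_nhds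
          (by simp [hε])
      · exact (hc.last hn (by positivity) ha).mono (by linarith)
  obtain ⟨K, hK⟩ := hto
  obtain ⟨K', hK'⟩ := hfrom
  refine ⟨K + K', fun N hN a ha a' ha' => ?_⟩
  obtain ⟨n, hn0, hn, h1⟩ := hK a ha
  obtain ⟨n', hn'0, hn', h2⟩ := hK' a' ha'
  have h3 : ChainN (f ^ M) ε (N - n - n') p p := chainN_fix hε hpM _
  have h4 := (h1.trans h3).trans h2
  have h5 : n + (N - n - n') + n' = N := by omega
  rw [h5, coe_pow] at h4
  exact h4.expand hM hε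

end Atoms

end Pool.Agent.Lib.MP610fe3.TM
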