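import Pool.Agent.Lib.MP_610fe3_an.TopC
import Pool.Agent.Lib.MP_610fe3_an.Transitive

/-!
# Transverse measures of Anosov diffeomorphisms: local stable plaques

`ev f k x` is the point `f^k x` (`k` an integer) and `Sp f ε x` the local stable plaque of size
`ε`; `Sp f.symm ε x` is the local unstable plaque.
-/

open Set Filter Function
open scoped Topology

namespace Pool.Agent.Lib.MP610fe3.TM

variable {X : Type*} [MetricSpace X] {f : X ≃ₜ X}

/-- The point `f^k x`. -/
def ev (f : X ≃ₜ X) (k : ℤ) (x : X) : X := (f ^ k) x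

@[simp] theorem ev_zero (x : X) : ev f 0 x = x := by simp [ev]

theorem ev_add (a b : ℤ) (x : X) : ev f (a + b) x = ev f a (ev f b x) := by
  simp only [ev, zpow_add, Homeomorph.mul_apply]

theorem ev_nat (n : ℕ) (x : X) : ev f n x = f^[n] x := by
  induction n with
  | zero => simp
  | succ n ih =>
    rw [iterate_succ_apply', ← ih, Nat.cast_succ, add_comm, ev_add]
    simp [ev]

theorem ev_one (x : X) : ev f 1 x = f x := by simp [ev]

theorem ev_symm (k : ℤ) (x : X) : ev f.symm k x = ev f (-k) x := by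
  have : f.symm = f⁻¹ := rfl
  simp only [ev, this, inv_zpow, zpow_neg]

theorem ev_neg_nat (n : ℕ) (x : X) : ev f (-n) x = f.symm^[n] x := by
  rw [← ev_symm, ev_nat]

@[simp] theorem ev_neg_ev (k : ℤ) (x : X) : ev f (-k) (ev f k x) = x := by
  rw [← ev_add]; simp

@[simp] theorem ev_ev_neg (k : ℤ) (x : X) : ev f k (ev f (-k) x) = x := by
  rw [← ev_add]; simp

theorem continuous_ev (k : ℤ) : Continuous (ev f k) := (f ^ k).continuous

theorem ev_injective (k : ℤ) : Injective (ev f k) := (f ^ k).injective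

/-- Local stable plaque. -/
def Sp (f : X ≃ₜ X) (ε : ℝ) (x : X) : Set X :=
  {y | ∀ k : ℕ, dist (ev f k y) (ev f k x) ≤ ε}

section Basic

variable {x y z : X} {ε ε' : ℝ}

theorem mem_Sp : y ∈ Sp f ε x ↔ ∀ k : ℕ, dist (ev f k y) (ev f k x) ≤ ε := Iff.rfl

theorem mem_Sp_symm : y ∈ Sp f.symm ε x ↔ ∀ k : ℕ, dist (ev f (-k) y) (ev f (-k) x) ≤ ε := by
  simp only [mem_Sp, ev_symm]

theorem Sp_self (hε : 0 ≤ ε) (x : X) : x ∈ Sp f ε x := fun k => by rwa [dist_self]

theorem Sp_comm (h : y ∈ Sp f ε x) : x ∈ Sp f ε y := fun k => by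
  rw [dist_comm]; exact h k

theorem Sp_mono (hε : ε ≤ ε') (h : y ∈ Sp f ε x) : y ∈ Sp f ε' x := fun k => (h k).trans hε

theorem Sp_trans (h : y ∈ Sp f ε x) (h' : z ∈ Sp f ε' y) : z ∈ Sp f (ε + ε') x := fun k => by
  have h1 := dist_triangle (ev f k z) (ev f k y) (ev f k x)
  have h2 := h k
  have h3 := h' k
  linarith

theorem Sp_dist (h : y ∈ Sp f ε x) : dist y x ≤ ε := by
  have := h 0
  simpa using this

theorem Sp_ev (h : y ∈ Sp f ε x) (n : ℕ) : ev f n y ∈ Sp f ε (ev f n x) := fun k => by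
  rw [← ev_add, ← ev_add]
  exact_mod_cast h (k + n)

theorem Sp_symm_ev (h : y ∈ Sp f.symm ε x) (n : ℕ) :
    ev f (-n) y ∈ Sp f.symm ε (ev f (-n) x) := by
  have := Sp_ev h n
  simpa only [ev_symm] using this

theorem isClosed_Sp (f : X ≃ₜ X) (ε : ℝ) (x : X) : IsClosed (Sp f ε x) := by
  have : Sp f ε x = ⋂ k : ℕ, {y | dist (ev f k y) (ev f k x) ≤ ε} := by
    ext y; simp [mem_Sp]
  rw [this]
  exact isClosed_iInter fun k => isClosed_le ((continuous_ev _).dist continuous_const)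
    continuous_const

/-- The relation `y ∈ Sp f ε x` is closed. -/
theorem isClosed_rel (f : X ≃ₜ X) (ε : ℝ) : IsClosed {p : X × X | p.2 ∈ Sp f ε p.1} := by
  have : {p : X × X | p.2 ∈ Sp f ε p.1} =
      ⋂ k : ℕ, {p : X × X | dist (ev f k p.2) (ev f k p.1) ≤ ε} := by
    ext y; simp [mem_Sp]
  rw [this]
  exact isClosed_iInter fun k => isClosed_le
    (((continuous_ev _).comp continuous_snd).dist ((continuous_ev _).comp continuous_fst))
    continuous_const

end Basic

section Compact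

variable [CompactSpace X]

theorem isCompact_Sp (f : X ≃ₜ X) (ε : ℝ) (x : X) : IsCompact (Sp f ε x) :=
  (isClosed_Sp f ε x).isCompact

theorem Sp_fwd {c ε : ℝ} (hc : ExpConst f c) {x y : X} (hε : ε ≤ c) (h : y ∈ Sp f ε x) :
    FwdAsymp f y x := by
  apply hc.fwdAsymp
  intro k
  have := h k
  rw [ev_nat, ev_nat] at this
  exact this.trans hε

/-- Uniqueness of the bracket. -/
theorem Sp_unique {c : ℝ} (hc : ExpConst f c) {x y : X} (h1 : y ∈ Sp f c x)
    (h2 : y ∈ Sp f.symm c x) : y = x := by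
  apply hc
  · intro k
    have := h1 k
    rwa [ev_nat, ev_nat] at this
  · intro k
    have := h2 k
    rwa [ev_nat, ev_nat] at this

/-- Uniform contraction of the stable plaques. -/
theorem unif_contr {c : ℝ} (hc : ExpConst f c) {η : ℝ} (hη : 0 < η) :
    ∃ K : ℕ, ∀ x y, y ∈ Sp f c x → ∀ k : ℕ, K ≤ k → dist (ev f k y) (ev f k x) ≤ η := by
  by_contra hnot
  push Not at hnot
  choose x y hy k hk hd using hnot
  obtain ⟨⟨a, b⟩, -, ψ, hψ, hlim⟩ := (isCompact_univ (X := X × X)).tendsto_subseq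
    (x := fun n => (ev f (k n) (y n), ev f (k n) (x n))) (fun _ => mem_univ _)
  have hla : Tendsto (fun n => ev f (k (ψ n)) (y (ψ n))) atTop (𝓝 a) :=
    (continuous_fst.tendsto (a, b)).comp hlim
  have hlb : Tendsto (fun n => ev f (k (ψ n)) (x (ψ n))) atTop (𝓝 b) :=
    (continuous_snd.tendsto (a, b)).comp hlim
  have hab : a = b := by
    apply Sp_unique hc
    · intro i
      have h1 := (((continuous_ev (f := f) i).tendsto a).comp hla).dist
        (((continuous_ev (f := f) i).tendsto b).comp hlb)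
      refine le_of_tendsto' h1 (fun n => ?_)
      simp only [Function.comp_apply]
      rw [← ev_add, ← ev_add]
      exact_mod_cast hy _ (i + k (ψ n))
    · rw [mem_Sp_symm]
      intro i
      have h1 := (((continuous_ev (f := f) (-i)).tendsto a).comp hla).dist
        (((continuous_ev (f := f) (-i)).tendsto b).comp hlb)
      refine le_of_tendsto h1 ?_
      filter_upwards [eventually_ge_atTop i] with n hn
      simp only [Function.comp_apply]
      rw [← ev_add, ← ev_add]
      have h2 : i ≤ k (ψ n) := hn.trans ((hψ.id_le n).trans (hk _))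
      have h3 : -(i : ℤ) + k (ψ n) = ((k (ψ n) - i : ℕ) : ℤ) := by omega
      rw [h3]
      exact hy _ _
  have h2 : η ≤ dist a b := ge_of_tendsto' (hla.dist hlb) (fun n => (hd (ψ n)).le)
  rw [hab, dist_self] at h2
  linarith

/-- Uniform continuity of finitely many iterates. -/
theorem unif_cont (f : X ≃ₜ X) (N : ℕ) {ε : ℝ} (hε : 0 < ε) :
    ∃ η : ℝ, 0 < η ∧ ∀ x y, dist x y < η → ∀ k : ℤ, -N ≤ k → k ≤ N →
      dist (ev f k x) (ev f k y) < ε := by
  have h1 : ∀ k : ℤ, ∃ η : ℝ, 0 < η ∧ ∀ x y, dist x y < η → dist (ev f k x) (ev f k y) < ε := by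
    intro k
    have := CompactSpace.uniformContinuous_of_continuous (continuous_ev (f := f) k)
    obtain ⟨η, hη, h⟩ := Metric.uniformContinuous_iff.1 this ε hε
    exact ⟨η, hη, fun x y h' => h h'⟩
  choose g hg hgd using h1
  have hfin : (Set.Icc (-(N : ℤ)) N).Finite := Set.finite_Icc _ _
  obtain ⟨k₀, hk₀, hmin⟩ := Set.exists_min_image (Set.Icc (-(N : ℤ)) N) g hfin
    ⟨0, by simp⟩
  exact ⟨g k₀, hg k₀, fun x y hxy k h1 h2 => hgd k x y (hxy.trans_le (hmin k ⟨h1, h2⟩))⟩

/-- Points of a plaque which are close stay close for `N` steps in the past. -/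
theorem near {c : ℝ} (hc : ExpConst f c) (N : ℕ) {δ : ℝ} (hδ : 0 < δ) :
    ∃ η : ℝ, 0 < η ∧ ∀ x y, y ∈ Sp f c x → dist y x < η →
      ev f (-N) y ∈ Sp f δ (ev f (-N) x) := by
  obtain ⟨K, hK⟩ := unif_contr hc hδ
  obtain ⟨η, hη, hu⟩ := unif_cont f (N + K) hδ
  refine ⟨η, hη, fun x y hxy hd k => ?_⟩
  rw [← ev_add, ← ev_add]
  rcases le_or_gt (K : ℤ) ((k : ℤ) + -N) with h | h
  · obtain ⟨j, hj⟩ : ∃ j : ℕ, (k : ℤ) + -N = j := ⟨((k : ℤ) + -N).toNat, by omega⟩
    rw [hj] at h ⊢
    exact hK x y hxy j (by exact_mod_cast h)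
  · exact (hu y x hd _ (by push_cast; omega) (by push_cast; omega)).le

/-- Finite nets. -/
theorem exists_net (X : Type*) [MetricSpace X] [CompactSpace X] {η : ℝ} (hη : 0 < η) :
    ∃ t : Finset X, ∀ x : X, ∃ p ∈ t, dist x p < η := by
  obtain ⟨t, -, ht, hcov⟩ := (isCompact_univ (X := X)).finite_cover_balls hη
  refine ⟨ht.toFinset, fun x => ?_⟩
  have := hcov (mem_univ x)
  simp only [mem_iUnion, Metric.mem_ball, exists_prop] at this
  obtain ⟨p, hp, hd⟩ := this
  exact ⟨p, ht.mem_toFinset.2 hp, hd⟩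

/-- Finite nets in a subset. -/
theorem exists_net_in {A : Set X} (hA : IsClosed A) {η : ℝ} (hη : 0 < η) :
    ∃ t : Finset X, (∀ p ∈ t, p ∈ A) ∧ ∀ x ∈ A, ∃ p ∈ t, dist x p < η := by
  obtain ⟨t, htA, ht, hcov⟩ := hA.isCompact.finite_cover_balls hη
  refine ⟨ht.toFinset, fun p hp => htA (ht.mem_toFinset.1 hp), fun x hx => ?_⟩
  have := hcov hx
  simp only [mem_iUnion, Metric.mem_ball, exists_prop] at this
  obtain ⟨p, hp, hd⟩ := this
  exact ⟨p, ht.mem_toFinset.2 hp, hd⟩

end Compact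

section Shadow

variable [CompactSpace X]

/-- Chains are shadowed by points of the unstable plaque of the first point whose image lies in the
stable plaque of the last point. -/
theorem chainShadow (hsh : Shadowing f) {ε : ℝ} (hε : 0 < ε) :
    ∃ δ : ℝ, 0 < δ ∧ ∀ (m : ℕ) (s : ℕ → X), (∀ i < m, dist (f (s i)) (s (i + 1)) < δ) →
      ∃ z, z ∈ Sp f.symm ε (s 0) ∧ ev f m z ∈ Sp f ε (s m) := by
  obtain ⟨δ, hδ, hs⟩ := hsh ε hε
  refine ⟨δ, hδ, fun m s hsd => ?_⟩
  obtain ⟨y, hy, hyd⟩ := hs (extendChain f s m) (extendChain_pseudo hδ hsd)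
  refine ⟨y 0, ?_, ?_⟩
  · rw [mem_Sp_symm]
    intro k
    rw [ev_neg_nat, ev_neg_nat, symm_iterate_of_orbit hy]
    have h1 := (hyd (0 - k)).le
    rcases Nat.eq_zero_or_pos k with rfl | hk
    · have h2 : extendChain f s m (0 - ((0 : ℕ) : ℤ)) = s 0 := by
        have := extendChain_nat (f := f) (c := s) (Nat.zero_le m)
        simpa using this
      rw [h2] at h1
      simpa using h1
    · have h2 : extendChain f s m (0 - (k : ℤ)) = f.symm^[k] (s 0) := by
        unfold extendChain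
        rw [if_pos (by omega)]
        congr 1
        simp
      rwa [h2] at h1
  · intro k
    rw [← ev_add, ← Nat.cast_add, ev_nat, iterate_of_orbit hy, ev_nat]
    have h1 := (hyd (0 + (k + m : ℕ))).le
    have h2 : extendChain f s m (0 + ((k + m : ℕ) : ℤ)) = f^[k] (s m) := by
      rcases Nat.eq_zero_or_pos k with rfl | hk
      · have := extendChain_nat (f := f) (c := s) (le_refl m)
        simpa using this
      · unfold extendChain
        rw [if_neg (by omega), if_neg (by omega)]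
        congr 1
        omega
    rwa [h2] at h1

/-- The bracket. -/
theorem bracketE (hsh : Shadowing f) {ε : ℝ} (hε : 0 < ε) :
    ∃ δ : ℝ, 0 < δ ∧ δ ≤ ε ∧ ∀ x y, dist x y < δ → ∃ z, z ∈ Sp f ε x ∧ z ∈ Sp f.symm ε y := by
  obtain ⟨δ, hδ, h⟩ := chainShadow hsh (show 0 < ε / 2 by positivity)
  refine ⟨min δ (ε / 2), lt_min hδ (by positivity), (min_le_right _ _).trans (by linarith),
    fun x y hxy => ?_⟩
  obtain ⟨z, hz1, hz2⟩ := h 1 (fun i => if i = 0 then f.symm y else x) (fun i hi => by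
    obtain rfl : i = 0 := by omega
    simp only [if_true, zero_add, one_ne_zero, if_false, f.apply_symm_apply]
    rw [dist_comm]; exact hxy.trans_le (min_le_left _ _))
  simp only [if_true, one_ne_zero, if_false, Nat.cast_one] at hz1 hz2
  refine ⟨ev f 1 z, Sp_mono (by linarith) hz2, ?_⟩
  rw [mem_Sp_symm] at hz1 ⊢
  intro k
  rcases Nat.eq_zero_or_pos k with rfl | hk
  · have h1 := Sp_dist hz2
    have h2 := hxy.trans_le (min_le_right _ _)
    have h3 := dist_triangle (ev f 1 z) x y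
    simp only [Nat.cast_zero, neg_zero, ev_zero]
    linarith
  · have h1 := hz1 (k - 1)
    have h2 : y = ev f 1 (f.symm y) := by rw [ev_one, f.apply_symm_apply]
    rw [h2, ← ev_add, ← ev_add]
    have h3 : -(k : ℤ) + 1 = -((k - 1 : ℕ) : ℤ) := by omega
    rw [h3]
    linarith

end Shadow

end Pool.Agent.Lib.MP610fe3.TM
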